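import Pool.Agent.Q96.ID.Stm

open Cardinal Set Filter Topology
open Q96.ID

namespace Q166.ID.ADD

/-- Removing fewer than `κ` points from a type of size `≥ κ` leaves at least `κ` points. -/
theorem le_of_remove {κ : Cardinal.{0}} (hκ : ℵ₀ ≤ κ) {X : Type} (P N : X → Prop)
    (hP : κ ≤ #{x // P x}) (hN : #{x // N x} < κ) : κ ≤ #{x // P x ∧ ¬ N x} := by
  by_contra hcon
  rw [not_le] at hcon
  have h1 := add_lt_of_lt hκ hcon hN
  have h2 : {x | P x} ⊆ {x | P x ∧ ¬ N x} ∪ {x | N x} := by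
    intro x hx
    by_cases hn : N x
    · exact Or.inr hn
    · exact Or.inl ⟨hx, hn⟩
  have h3 : #{x // P x} ≤ #{x // P x ∧ ¬ N x} + #{x // N x} :=
    (mk_le_mk_of_subset h2).trans (mk_union_le _ _)
  exact absurd (hP.trans h3) (not_le.2 h1)

theorem t_ADD : S_ADD := by
  classical
  intro κ hreg I J _ _ hI hlt U hU S _ hS B hB
  have hκ : ℵ₀ ≤ κ := hreg.aleph0_le
  -- a surjection e : I → S
  obtain ⟨emb⟩ : Nonempty (S ↪ I) := by
    rw [← Cardinal.le_def, hI]; exact hS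
  obtain ⟨e, he⟩ : ∃ e : I → S, Function.Surjective e :=
    ⟨Function.invFun emb, Function.invFun_surjective emb.injective⟩
  let c : I → I → I := fun i ξ =>
    if h : ∃ η, (ξ, η) ∈ B (e i) ∧ U (ξ, η) = ⊤ then h.choose else ξ
  have hc : ∀ i ξ, (∃ η, (ξ, η) ∈ B (e i) ∧ U (ξ, η) = ⊤) →
      (ξ, c i ξ) ∈ B (e i) ∧ U (ξ, c i ξ) = ⊤ := by
    intro i ξ h
    have : c i ξ = h.choose := by simp only [c]; rw [dif_pos h]
    rw [this]
    exact h.choose_spec
  refine ⟨{x | ∃ i, i < x.1 ∧ x.2 = c i x.1 ∧ U x = ⊤}, ?_, ?_, ?_⟩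
  · rintro x ⟨i, _, _, h⟩
    exact h
  · intro ξ
    have h1 : {η : I | (ξ, η) ∈ {x : I × I | ∃ i, i < x.1 ∧ x.2 = c i x.1 ∧ U x = ⊤}} ⊆
        (fun i => c i ξ) '' (Iio ξ) := by
      rintro η ⟨i, h1, h2, _⟩
      exact ⟨i, h1, h2.symm⟩
    exact ((mk_le_mk_of_subset h1).trans mk_image_le).trans_lt (hlt ξ)
  · intro s
    obtain ⟨i, rfl⟩ := he s
    apply le_antisymm
    · calc #{x : I × I // x ∈ {x : I × I | ∃ i, i < x.1 ∧ x.2 = c i x.1 ∧ U x = ⊤} ∧
            x ∈ B (e i)} ≤ #(I × I) := mk_subtype_le _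
        _ = κ := by
          rw [mk_prod, lift_id, hI]
          exact mul_eq_self hκ
    · have hIic : #{ξ : I // ξ ≤ i} < κ := by
        have h1 : {ξ : I | ξ ≤ i} ⊆ Iio i ∪ {i} := by
          intro ξ hξ
          rcases lt_or_eq_of_le hξ with h | h
          · exact Or.inl h
          · exact Or.inr h
        refine lt_of_le_of_lt ((mk_le_mk_of_subset h1).trans (mk_union_le _ _)) ?_
        refine add_lt_of_lt hκ (hlt i) ?_
        rw [mk_singleton]
        exact one_lt_aleph0.trans_le hκ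
      have h2 := le_of_remove hκ (fun ξ : I => #{η : I // (ξ, η) ∈ B (e i)} = κ)
        (fun ξ => ξ ≤ i) (hB (e i)).ge hIic
      refine h2.trans ?_
      -- the injection
      have h3 : ∀ ξ : {ξ : I // #{η : I // (ξ, η) ∈ B (e i)} = κ ∧ ¬ ξ ≤ i},
          (ξ.1, c i ξ.1) ∈ B (e i) ∧ U (ξ.1, c i ξ.1) = ⊤ := by
        intro ξ
        apply hc
        have h4 := le_of_remove hκ (fun η : I => (ξ.1, η) ∈ B (e i))
          (fun η => U (ξ.1, η) ≠ ⊤) ξ.2.1.ge (hU ξ.1)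
        have h5 : #{η : I // (ξ.1, η) ∈ B (e i) ∧ ¬ U (ξ.1, η) ≠ ⊤} ≠ 0 := by
          intro h0
          rw [h0] at h4
          exact absurd (hκ.trans h4) (not_le.2 aleph0_pos)
        obtain ⟨η⟩ := mk_ne_zero_iff.1 h5
        exact ⟨η.1, η.2.1, not_not.1 η.2.2⟩
      refine mk_le_of_injective (f := fun ξ => ⟨(ξ.1, c i ξ.1),
        ⟨i, not_le.1 ξ.2.2, rfl, (h3 ξ).2⟩, (h3 ξ).1⟩) ?_
      intro a b hab
      have h6 := congrArg (fun z => z.1.1) hab
      exact Subtype.ext h6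

end Q166.ID.ADD
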