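import Pool.Agent.Q96.ID.Stm

open Cardinal Set Filter Topology
open Q96.ID

namespace Q166.ID.COMB

/-- The property of the `j`-th function of the sequence, given the previous ones. -/
def Good (κ : Cardinal.{0}) {I J : Type} [LinearOrder J] (D : J → Set (I × I)) (j : J)
    (prev : ∀ k : J, k < j → I × I → WithTop J) (w : I × I → WithTop J) : Prop :=
  (∀ x, w x ≤ (j : WithTop J) ∨ w x = ⊤) ∧ Thin κ w ∧
    (∀ k (h : k < j), Coh κ k (prev k h) w) ∧
    ∀ F : Finset J, (∀ γ ∈ F, γ < j) →
      #{x : I × I // w x = (j : WithTop J) ∧ ∀ γ ∈ F, x ∈ D γ} = κ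

open Classical in
theorem exists_V (κ : Cardinal.{0}) {I J : Type} [LinearOrder J] [WellFoundedLT J]
    (D : J → Set (I × I)) :
    ∃ V : J → I × I → WithTop J, ∀ j, (∃ w, Good κ D j (fun k _ => V k) w) →
      Good κ D j (fun k _ => V k) (V j) := by
  let step : ∀ j : J, (∀ k : J, k < j → I × I → WithTop J) → I × I → WithTop J :=
    fun j prev => if h : ∃ w, Good κ D j prev w then h.choose else fun _ => ⊤
  let V : J → I × I → WithTop J := (wellFounded_lt (α := J)).fix step
  refine ⟨V, fun j hj => ?_⟩
  have h1 : V j = step j (fun k _ => V k) := (wellFounded_lt (α := J)).fix_eq step j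
  have h2 : step j (fun k _ => V k) = hj.choose := by
    simp only [step]
    rw [dif_pos hj]
  rw [h1, h2]
  exact hj.choose_spec

theorem mk_finset_le {κ : Cardinal.{0}} (hκ : ℵ₀ ≤ κ) {X : Type} (hX : #X ≤ κ) :
    #(Finset X) ≤ κ := by
  rcases finite_or_infinite X with h | h
  · exact (lt_aleph0_of_finite (Finset X)).le.trans hκ
  · rw [mk_finset_of_infinite]
    exact hX

theorem t_COMB (h1 : S_AMALG) (h2 : S_ADD) : S_COMB := by
  classical
  intro κ hreg I J _ _ _ _ hI hlt hJ D hD
  have hκ : ℵ₀ ≤ κ := hreg.aleph0_le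
  obtain ⟨V, hV⟩ := exists_V κ (I := I) D
  have hgood : ∀ j, Good κ D j (fun k _ => V k) (V j) := by
    intro j
    induction j using WellFoundedLT.induction with
    | ind j ih =>
      apply hV
      obtain ⟨U, hU1, hU2, hU3⟩ := h1 κ hreg I J hI hlt j (hJ j) V
        (fun k hk x => (ih k hk).1 x) (fun k hk => (ih k hk).2.1)
        (fun k l hkl hl => (ih l hl).2.2.1 k hkl)
      obtain ⟨C, hC1, hC2, hC3⟩ := h2 κ hreg I J hI hlt U hU2 (Finset {γ : J // γ < j})
        (mk_finset_le hκ (hJ j))
        (fun F => ⋂ γ ∈ F.map (Function.Embedding.subtype _), D γ) (fun F => hD _)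
      refine ⟨fun x => if x ∈ C then (j : WithTop J) else U x, ?_, ?_, ?_, ?_⟩
      · intro x
        beta_reduce
        by_cases hx : x ∈ C
        · left; rw [if_pos hx]
        · rw [if_neg hx]
          rcases hU1 x with h | h
          · exact Or.inl h.le
          · exact Or.inr h
      · intro ξ
        have h3 : {η : I | (if (ξ, η) ∈ C then (j : WithTop J) else U (ξ, η)) ≠ ⊤} ⊆
            {η : I | (ξ, η) ∈ C} ∪ {η : I | U (ξ, η) ≠ ⊤} := by
          intro η hη
          by_cases hx : (ξ, η) ∈ C
          · exact Or.inl hx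
          · right
            have h4 : (if (ξ, η) ∈ C then (j : WithTop J) else U (ξ, η)) ≠ ⊤ := hη
            rw [if_neg hx] at h4
            exact h4
        exact ((mk_le_mk_of_subset h3).trans (mk_union_le _ _)).trans_lt
          (add_lt_of_lt hκ (hC2 ξ) (hU2 ξ))
      · intro k hk
        have h3 := hU3 k hk
        unfold Coh at h3 ⊢
        refine lt_of_le_of_lt ?_ h3
        refine mk_le_mk_of_subset (s := {x | V k x ≠ if (if x ∈ C then (j : WithTop J) else U x) ≤
          (k : WithTop J) then (if x ∈ C then (j : WithTop J) else U x) else ⊤})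
          (t := {x | V k x ≠ if U x ≤ (k : WithTop J) then U x else ⊤}) ?_
        intro x hx
        by_cases hxC : x ∈ C
        · have h4 : V k x ≠ if (if x ∈ C then (j : WithTop J) else U x) ≤
            (k : WithTop J) then (if x ∈ C then (j : WithTop J) else U x) else ⊤ := hx
          rw [if_pos hxC, if_neg (not_le.2 (WithTop.coe_lt_coe.2 hk))] at h4
          show V k x ≠ if U x ≤ (k : WithTop J) then U x else ⊤
          rw [hC1 x hxC, ite_self]
          exact h4
        · have h4 : V k x ≠ if (if x ∈ C then (j : WithTop J) else U x) ≤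
            (k : WithTop J) then (if x ∈ C then (j : WithTop J) else U x) else ⊤ := hx
          rw [if_neg hxC] at h4
          exact h4
      · intro F hF
        apply le_antisymm
        · refine (mk_subtype_le _).trans ?_
          rw [mk_prod, lift_id, hI]
          exact (mul_eq_self hκ).le
        · have h3 := hC3 (F.subtype (· < j))
          rw [← h3]
          refine mk_le_mk_of_subset (s := {x : I × I | x ∈ C ∧ x ∈ ⋂ γ ∈ (F.subtype (· < j)).map
            (Function.Embedding.subtype _), D γ})
            (t := {x : I × I | (if x ∈ C then (j : WithTop J) else U x) = (j : WithTop J) ∧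
              ∀ γ ∈ F, x ∈ D γ}) ?_
          rintro x ⟨hx1, hx2⟩
          refine ⟨if_pos hx1, fun γ hγ => ?_⟩
          rw [Finset.subtype_map_of_mem hF] at hx2
          exact mem_iInter₂.1 hx2 γ hγ
  exact ⟨V, fun j x => (hgood j).1 x, fun j => (hgood j).2.1,
    fun k j hkj => (hgood j).2.2.1 k hkj, fun j F hF => (hgood j).2.2.2 F hF⟩

end Q166.ID.COMB
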