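import Pool.Agent.Q96.ID.Stm

open Cardinal Set Filter Topology
open Q96.ID

namespace Q166.ID.EMAP

variable {𝕜 : Type} [RCLike 𝕜]

theorem ev_add {J : Type} (f g : J → 𝕜) (v : WithTop J) :
    ev (fun j => f j + g j) v = ev f v + ev g v := by
  cases v with
  | top => exact (add_zero (0 : 𝕜)).symm
  | coe j => rfl

theorem ev_smul {J : Type} (c : 𝕜) (f : J → 𝕜) (v : WithTop J) :
    ev (fun j => c * f j) v = c * ev f v := by
  cases v with
  | top => exact (mul_zero c).symm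
  | coe j => rfl

theorem norm_ev_le {J : Type} (f : Linf 𝕜 J) (v : WithTop J) :
    ‖ev (fun j => f j) v‖ ≤ ‖f‖ := by
  cases v with
  | top =>
    show ‖(0 : 𝕜)‖ ≤ ‖f‖
    rw [norm_zero]; exact norm_nonneg _
  | coe j => exact lp.norm_apply_le_norm ENNReal.top_ne_zero f j

/-- Composition with `v`, as an operator. -/
noncomputable def T (𝕜 : Type) [RCLike 𝕜] {X J : Type} (v : X → WithTop J) : Linf 𝕜 J →L[𝕜] Linf 𝕜 X :=
  LinearMap.mkContinuous
    { toFun := fun f => ⟨fun x => ev (fun j => f j) (v x), by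
        refine memℓp_infty ⟨‖f‖, ?_⟩
        rintro _ ⟨x, rfl⟩
        exact norm_ev_le f (v x)⟩
      map_add' := by
        intro f g
        apply lp.ext
        funext x
        exact ev_add (fun j => f j) (fun j => g j) (v x)
      map_smul' := by
        intro c f
        apply lp.ext
        funext x
        exact ev_smul c (fun j => f j) (v x) } 1 (by
    intro f
    rw [one_mul]
    exact lp.norm_le_of_forall_le (norm_nonneg f) (fun x => norm_ev_le f (v x)))

theorem T_apply {X J : Type} (v : X → WithTop J) (f : Linf 𝕜 J) (x : X) :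
    T 𝕜 v f x = ev (fun j => f j) (v x) := rfl

theorem norm_T_le {X J : Type} (v : X → WithTop J) (f : Linf 𝕜 J) : ‖T 𝕜 v f‖ ≤ ‖f‖ :=
  lp.norm_le_of_forall_le (norm_nonneg f) (fun x => norm_ev_le f (v x))

theorem indep {κ : Cardinal.{0}} {hκ : ℵ₀ ≤ κ} {I J : Type} [LinearOrder J]
    {V : J → I × I → WithTop J} (hV : ∀ k j, k < j → Coh κ k (V k) (V j))
    {Q : Type} [NormedAddCommGroup Q] [NormedSpace 𝕜 Q] {π : Linf 𝕜 (I × I) →L[𝕜] Q}
    (hπ : ∀ f ∈ A 𝕜 κ hκ (I × I), π f = 0) (g : Linf 𝕜 J) {b b' : J} (hbb : b ≤ b')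
    (hg : ∀ j, b < j → g j = 0) : π (T 𝕜 (V b) g) = π (T 𝕜 (V b') g) := by
  rcases eq_or_lt_of_le hbb with rfl | hlt
  · rfl
  rw [← sub_eq_zero, ← map_sub]
  apply hπ
  intro ε hε
  refine lt_of_le_of_lt ?_ (hV b b' hlt)
  refine mk_le_mk_of_subset
    (s := {x | ε < ‖(T 𝕜 (V b) g - T 𝕜 (V b') g : Linf 𝕜 (I × I)) x‖})
    (t := {x | V b x ≠ if V b' x ≤ (b : WithTop J) then V b' x else ⊤}) ?_
  intro x hx
  by_contra hcon
  have hcon' : V b x = if V b' x ≤ (b : WithTop J) then V b' x else ⊤ := not_not.1 hcon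
  have h1 : (T 𝕜 (V b) g - T 𝕜 (V b') g : Linf 𝕜 (I × I)) x =
      ev (fun j => g j) (V b x) - ev (fun j => g j) (V b' x) := rfl
  have h2 : ev (fun j => g j) (V b x) = ev (fun j => g j) (V b' x) := by
    rw [hcon']
    split_ifs with h3
    · rfl
    · cases h4 : V b' x with
      | top => rfl
      | coe j =>
        rw [h4] at h3
        have h5 : b < j := by
          rw [not_le] at h3
          exact WithTop.coe_lt_coe.1 h3
        exact (hg j h5).symm
  have h3 : ε < ‖(T 𝕜 (V b) g - T 𝕜 (V b') g : Linf 𝕜 (I × I)) x‖ := hx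
  rw [h1, h2, sub_self, norm_zero] at h3
  linarith

theorem t_EMAP (h1 : S_AKG) : S_EMAP := by
  classical
  intro 𝕜 _ κ hκ hκ' I J _ hS V _ hV Q _ _ π hπ
  have hb : ∀ g : A 𝕜 (Order.succ κ) hκ' J, ∃ b : J, ∀ j, b < j → (g : Linf 𝕜 J) j = 0 := by
    intro g
    have h2 := (h1 𝕜 (Order.succ κ) hκ' J J).2.2 (Order.lt_succ_iff.2 hκ)
      (isRegular_succ hκ) g g.2
    obtain ⟨b, hb⟩ := hS {γ | (g : Linf 𝕜 J) γ ≠ 0} (Order.lt_succ_iff.1 h2)
    refine ⟨b, fun j hj => ?_⟩
    by_contra hne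
    exact absurd (hb j hne) (not_lt.2 hj.le)
  choose b hb using hb
  have hind : ∀ (g : A 𝕜 (Order.succ κ) hκ' J) (c m : J), (∀ j, c < j → (g : Linf 𝕜 J) j = 0) →
      b g ≤ m → c ≤ m → π (T 𝕜 (V (b g)) (g : Linf 𝕜 J)) = π (T 𝕜 (V m) (g : Linf 𝕜 J)) ∧
        π (T 𝕜 (V c) (g : Linf 𝕜 J)) = π (T 𝕜 (V m) (g : Linf 𝕜 J)) := by
    intro g c m hc h2 h3
    exact ⟨indep hV hπ g h2 (hb g), indep hV hπ g h3 hc⟩
  let E0 : A 𝕜 (Order.succ κ) hκ' J →ₗ[𝕜] Q :=
    { toFun := fun g => π (T 𝕜 (V (b g)) (g : Linf 𝕜 J))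
      map_add' := by
        intro f g
        have e1 := indep hV hπ f (le_max_left (b f) (max (b g) (b (f + g)))) (hb f)
        have e2 := indep hV hπ g ((le_max_left (b g) (b (f + g))).trans
          (le_max_right (b f) (max (b g) (b (f + g))))) (hb g)
        have e3 := indep hV hπ (f + g : A 𝕜 (Order.succ κ) hκ' J)
          ((le_max_right (b g) (b (f + g))).trans
          (le_max_right (b f) (max (b g) (b (f + g))))) (hb (f + g))
        rw [e1, e2, e3, Submodule.coe_add, map_add, map_add]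
      map_smul' := by
        intro c f
        have e1 := indep hV hπ f (le_max_left (b f) (b (c • f))) (hb f)
        have e2 := indep hV hπ (c • f : A 𝕜 (Order.succ κ) hκ' J)
          (le_max_right (b f) (b (c • f))) (hb (c • f))
        rw [e1, e2, Submodule.coe_smul, map_smul, map_smul, RingHom.id_apply] }
  let E : A 𝕜 (Order.succ κ) hκ' J →L[𝕜] Q := E0.mkContinuous ‖π‖ (by
    intro g
    refine (π.le_opNorm _).trans ?_
    exact mul_le_mul_of_nonneg_left (norm_T_le _ _) (norm_nonneg _))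
  refine ⟨E, fun g c f hc hf => ?_⟩
  have h2 : f = T 𝕜 (V c) (g : Linf 𝕜 J) := by
    apply lp.ext
    funext x
    exact hf x
  rw [h2]
  have h3 := hind g c (max (b g) c) hc (le_max_left _ _) (le_max_right _ _)
  exact h3.1.trans h3.2.symm

end Q166.ID.EMAP
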